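import Pool.Agent.U737.MN.Stm3
import Pool.Agent.TH444.ML.Tr
import Pool.Agent.U221.CD.Kum

/-!
Project MN, package DiscUp: the discriminant of `M(α^(1/ℓ))` from above.
-/

set_option autoImplicit false

open NumberField Filter Topology Module

namespace Pool.Agent.U869.MN

open Pool.Agent.TH444.ML (dsc dsc_eq one_le_dsc nf_of_fd nrm)
open Pool.Agent.U737.MN (HasZ Kum)

theorem discr_le (K L : Type) [Field K] [NumberField K] [Field L] [NumberField L] [Algebra K L]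
    {p : ℕ} {d : 𝓞 K} {θ : 𝓞 L} (hp : p.Prime) (h3 : finrank K L = p)
    (hd0 : d ≠ 0) (hd : ∀ b : K, b ^ p ≠ (d : K)) (hθ : θ ^ p = algebraMap (𝓞 K) (𝓞 L) d) :
    (discr L).natAbs ≤ (discr K).natAbs ^ p *
      (p ^ (p * finrank ℚ K) * (Algebra.norm ℤ d).natAbs ^ (p - 1)) := by
  have h1 := natAbs_discr_eq_absNorm_differentIdeal_mul_natAbs_discr_pow K (𝓞 K) L (𝓞 L)
  rw [h3] at h1
  have h2 := Pool.Agent.U221.CD.mem_diff hp h3 hd hθ
  have h4 : Ideal.absNorm (differentIdeal (𝓞 K) (𝓞 L)) ∣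
      (Algebra.norm ℤ ((p : 𝓞 L) * θ ^ (p - 1))).natAbs := by
    rw [← Ideal.absNorm_span_singleton]
    exact Ideal.absNorm_dvd_absNorm_of_le ((Ideal.span_singleton_le_iff_mem _).2 h2)
  have hfL : finrank ℚ L = p * finrank ℚ K := by
    rw [← finrank_mul_finrank ℚ K L, h3, mul_comm]
  have hn1 : Algebra.norm ℤ (p : 𝓞 L) = (p : ℤ) ^ (p * finrank ℚ K) := by
    have : ((p : ℕ) : 𝓞 L) = algebraMap ℤ (𝓞 L) (p : ℤ) := by simp
    rw [this, Algebra.norm_algebraMap, RingOfIntegers.rank, hfL]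
  have hn2 : (Algebra.norm ℤ θ).natAbs = (Algebra.norm ℤ d).natAbs := by
    have e1 : Algebra.norm ℤ (θ ^ p) = Algebra.norm ℤ d ^ p := by
      have e2 : ((Algebra.norm ℤ (θ ^ p) : ℤ) : ℚ) = ((Algebra.norm ℤ d ^ p : ℤ) : ℚ) := by
        rw [Algebra.coe_norm_int, Int.cast_pow, Algebra.coe_norm_int, hθ]
        have e3 : ((algebraMap (𝓞 K) (𝓞 L) d : 𝓞 L) : L) = algebraMap K L (d : K) := rfl
        rw [e3, ← Algebra.norm_norm (R := ℚ) (S := K) (A := L), Algebra.norm_algebraMap, h3, map_pow]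
      exact_mod_cast e2
    rw [map_pow] at e1
    have e3 : (Algebra.norm ℤ θ).natAbs ^ p = (Algebra.norm ℤ d).natAbs ^ p := by
      rw [← Int.natAbs_pow, ← Int.natAbs_pow, e1]
    exact Nat.pow_left_injective hp.ne_zero e3
  have hd1 : Algebra.norm ℤ d ≠ 0 := Algebra.norm_ne_zero_iff.2 hd0
  have h5 : (Algebra.norm ℤ ((p : 𝓞 L) * θ ^ (p - 1))).natAbs =
      p ^ (p * finrank ℚ K) * (Algebra.norm ℤ d).natAbs ^ (p - 1) := by
    rw [map_mul, map_pow, hn1, Int.natAbs_mul, Int.natAbs_pow, Int.natAbs_pow, hn2,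
      Int.natAbs_natCast]
  rw [h5] at h4
  have h6 : 0 < p ^ (p * finrank ℚ K) * (Algebra.norm ℤ d).natAbs ^ (p - 1) :=
    Nat.mul_pos (pow_pos hp.pos _) (pow_pos (Int.natAbs_pos.2 hd1) _)
  rw [h1, mul_comm]
  exact Nat.mul_le_mul_left _ (Nat.le_of_dvd h6 h4)

theorem t_DiscUp : (Pool.Agent.U737.MN.DegL → Pool.Agent.U737.MN.DiscUp) := by
  intro hDeg ℓ K Ω _ _ _ _ _ M L _ _ α s hℓ hZ hα hs hK
  obtain ⟨hfdL, hfin⟩ := hDeg ℓ K Ω M L s hℓ hZ hK
  have : NumberField L := nf_of_fd L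
  obtain ⟨hsM, hsnM, hL⟩ := hK
  have hML : M ≤ L := by rw [hL]; exact le_sup_left
  have hsL : s ∈ L := by
    rw [hL]
    exact (le_sup_right : IntermediateField.adjoin K {s} ≤ _) (IntermediateField.mem_adjoin_simple_self K s)
  letI : Algebra M L := (IntermediateField.inclusion hML).toAlgebra
  haveI : IsScalarTower K M L := IsScalarTower.of_algebraMap_eq fun x => rfl
  have h3 : finrank M L = ℓ := by
    have h1 := finrank_mul_finrank K M L
    have h2 : 0 < finrank K M := finrank_pos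
    rw [hfin, mul_comm] at h1
    exact Nat.eq_of_mul_eq_mul_right h2 h1
  have hd : ∀ b : M, b ^ ℓ ≠ (α : M) := by
    intro b hb
    obtain ⟨ζ, hζ⟩ := hZ
    have hζΩ : IsPrimitiveRoot (algebraMap K Ω ζ) ℓ := hζ.map_of_injective (algebraMap K Ω).injective
    have hb0 : (b : Ω) ≠ 0 := by
      intro h0
      apply hα
      have : b = 0 := by exact_mod_cast h0
      rw [this, zero_pow hℓ.ne_zero] at hb
      exact (RingOfIntegers.coe_eq_zero_iff.1 hb.symm)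
    have h1 : (s / (b : Ω)) ^ ℓ = 1 := by
      rw [div_pow, hs, ← hb]
      rw [div_eq_one_iff_eq (pow_ne_zero _ hb0)]
      push_cast
      rfl
    have : NeZero ℓ := ⟨hℓ.ne_zero⟩
    obtain ⟨i, -, hi⟩ := hζΩ.eq_pow_of_pow_eq_one h1
    apply hsnM
    have h2 : s = algebraMap K Ω ζ ^ i * (b : Ω) := by
      rw [hi]
      field_simp
    rw [h2]
    exact M.mul_mem (pow_mem (M.algebraMap_mem ζ) i) b.2
  have hint : IsIntegral ℤ (⟨s, hsL⟩ : L) := by
    have h1 : IsIntegral ℤ ((⟨s, hsL⟩ : L) ^ ℓ) := by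
      have e : (⟨s, hsL⟩ : L) ^ ℓ = algebraMap M L (α : M) := by
        apply Subtype.ext
        show s ^ ℓ = _
        rw [hs]
        rfl
      rw [e]
      exact (RingOfIntegers.isIntegral_coe α).algebraMap
    exact IsIntegral.of_pow hℓ.pos h1
  let θ : 𝓞 L := ⟨⟨s, hsL⟩, hint⟩
  have hθ : θ ^ ℓ = algebraMap (𝓞 M) (𝓞 L) α := by
    apply RingOfIntegers.coe_injective
    apply Subtype.ext
    show s ^ ℓ = _
    rw [hs]
    rfl
  have key := discr_le M L hℓ h3 hα hd hθ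
  rw [dsc_eq L, dsc_eq M]
  unfold nrm
  have e : ∀ z : ℤ, ((|z| : ℤ) : ℝ) = ((z.natAbs : ℕ) : ℝ) := by
    intro z
    rw [Int.abs_eq_natAbs]
    simp
  rw [e, e, e]
  exact_mod_cast key

end Pool.Agent.U869.MN
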